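import Mathlib

set_option autoImplicit false

open Filter Topology

namespace Pool.Agent.Lib.MP_fd67f7_an

/-- A dendrite: a locally connected continuum (compact connected metric space) that contains no
subset homeomorphic to a circle. -/
def IsDendrite (X : Type) [MetricSpace X] : Prop :=
  CompactSpace X ∧ ConnectedSpace X ∧ LocallyConnectedSpace X ∧
    ∀ S : Set X, IsEmpty (S ≃ₜ Circle)

/-- The number of `0 ≤ k ≤ n` with `d(f^k x, f^k y) < δ`. -/
noncomputable def closeCount {X : Type} [MetricSpace X] (f : X → X) (x y : X) (δ : ℝ) (n : ℕ) :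
    ℕ :=
  {k : ℕ | k ≤ n ∧ dist (f^[k] x) (f^[k] y) < δ}.ncard

/-- The lower distribution function `Φ_{xy}(δ)`. -/
noncomputable def lowerPhi {X : Type} [MetricSpace X] (f : X → X) (x y : X) (δ : ℝ) : ℝ :=
  liminf (fun n : ℕ => (closeCount f x y δ n : ℝ) / n) atTop

/-- The upper distribution function `Φ*_{xy}(δ)`. -/
noncomputable def upperPhi {X : Type} [MetricSpace X] (f : X → X) (x y : X) (δ : ℝ) : ℝ :=
  limsup (fun n : ℕ => (closeCount f x y δ n : ℝ) / n) atTop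

/-- A DC2 pair. -/
def IsDC2Pair {X : Type} [MetricSpace X] (f : X → X) (x y : X) : Prop :=
  x ≠ y ∧ (∀ δ : ℝ, 0 < δ → δ ≤ Metric.diam (Set.univ : Set X) → upperPhi f x y δ = 1) ∧
    ∃ ε : ℝ, 0 < ε ∧ ε ≤ Metric.diam (Set.univ : Set X) ∧ lowerPhi f x y ε < 1

/-- A DC2½ pair: the one-sided limits at `0` satisfy `Φ_{xy}(0) < Φ*_{xy}(0)`. -/
def IsDC25Pair {X : Type} [MetricSpace X] (f : X → X) (x y : X) : Prop :=
  x ≠ y ∧ ∃ a b : ℝ, Tendsto (lowerPhi f x y) (𝓝[>] 0) (𝓝 a) ∧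
    Tendsto (upperPhi f x y) (𝓝[>] 0) (𝓝 b) ∧ a < b

end Pool.Agent.Lib.MP_fd67f7_an
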