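import Pool.Agent.Lib.MP_fd67f7_an.Hull

set_option autoImplicit false

open Filter Topology Set

namespace Pool.Agent.Lib.MP_fd67f7_an

/-! ### The distribution functions -/

section phi

variable {X : Type} [MetricSpace X] (f : X → X) (x y : X)

lemma close_subset (δ : ℝ) (n : ℕ) :
    {k : ℕ | k ≤ n ∧ dist (f^[k] x) (f^[k] y) < δ} ⊆ (Finset.range (n + 1) : Set ℕ) := by
  intro k hk
  rw [Finset.coe_range, Set.mem_Iio]
  have := hk.1
  omega

lemma close_finite (δ : ℝ) (n : ℕ) :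
    {k : ℕ | k ≤ n ∧ dist (f^[k] x) (f^[k] y) < δ}.Finite :=
  (Finset.finite_toSet _).subset (close_subset f x y δ n)

lemma closeCount_le (δ : ℝ) (n : ℕ) : closeCount f x y δ n ≤ n + 1 := by
  unfold closeCount
  refine (Set.ncard_le_ncard (close_subset f x y δ n) (Finset.finite_toSet _)).trans ?_
  rw [Set.ncard_coe_finset, Finset.card_range]

lemma ratio_le_two (δ : ℝ) (n : ℕ) : (closeCount f x y δ n : ℝ) / n ≤ 2 := by
  rcases Nat.eq_zero_or_pos n with h | h
  · subst h; simp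
  · have h1 : (0 : ℝ) < n := by exact_mod_cast h
    rw [div_le_iff₀ h1]
    have h2 : (closeCount f x y δ n : ℝ) ≤ n + 1 := by exact_mod_cast closeCount_le f x y δ n
    have h3 : (1 : ℝ) ≤ n := by exact_mod_cast h
    linarith

lemma ratio_nonneg (δ : ℝ) (n : ℕ) : 0 ≤ (closeCount f x y δ n : ℝ) / n := by positivity

lemma bdd_above (δ : ℝ) :
    IsBoundedUnder (· ≤ ·) atTop (fun n : ℕ => (closeCount f x y δ n : ℝ) / n) :=
  isBoundedUnder_of ⟨2, fun n => ratio_le_two f x y δ n⟩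

lemma bdd_below (δ : ℝ) :
    IsBoundedUnder (· ≥ ·) atTop (fun n : ℕ => (closeCount f x y δ n : ℝ) / n) :=
  isBoundedUnder_of ⟨0, fun n => ratio_nonneg f x y δ n⟩

lemma le_lowerPhi {δ a : ℝ} (h : ∀ᶠ n : ℕ in atTop, a ≤ (closeCount f x y δ n : ℝ) / n) :
    a ≤ lowerPhi f x y δ :=
  le_liminf_of_le (bdd_above f x y δ).isCoboundedUnder_ge h

lemma lowerPhi_le {δ a : ℝ} (h : ∃ᶠ n : ℕ in atTop, (closeCount f x y δ n : ℝ) / n ≤ a) :
    lowerPhi f x y δ ≤ a :=
  liminf_le_of_frequently_le h (bdd_below f x y δ)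

lemma le_upperPhi {δ a : ℝ} (h : ∃ᶠ n : ℕ in atTop, a ≤ (closeCount f x y δ n : ℝ) / n) :
    a ≤ upperPhi f x y δ :=
  le_limsup_of_frequently_le h (bdd_above f x y δ)

lemma upperPhi_le {δ a : ℝ} (h : ∀ᶠ n : ℕ in atTop, (closeCount f x y δ n : ℝ) / n ≤ a) :
    upperPhi f x y δ ≤ a :=
  limsup_le_of_le (bdd_below f x y δ).isCoboundedUnder_le h

lemma closeCount_mono {δ δ' : ℝ} (h : δ ≤ δ') (n : ℕ) :
    closeCount f x y δ n ≤ closeCount f x y δ' n := by
  unfold closeCount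
  refine Set.ncard_le_ncard ?_ (close_finite f x y δ' n)
  rintro k ⟨h1, h2⟩
  exact ⟨h1, h2.trans_le h⟩

lemma ratio_mono {δ δ' : ℝ} (h : δ ≤ δ') (n : ℕ) :
    (closeCount f x y δ n : ℝ) / n ≤ (closeCount f x y δ' n : ℝ) / n := by
  apply div_le_div_of_nonneg_right _ (Nat.cast_nonneg n)
  exact_mod_cast closeCount_mono f x y h n

lemma lowerPhi_mono : Monotone (lowerPhi f x y) := by
  intro δ δ' h
  exact liminf_le_liminf (Eventually.of_forall fun n => ratio_mono f x y h n)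
    (bdd_below f x y δ) (bdd_above f x y δ').isCoboundedUnder_ge

lemma upperPhi_mono : Monotone (upperPhi f x y) := by
  intro δ δ' h
  exact limsup_le_limsup (Eventually.of_forall fun n => ratio_mono f x y h n)
    (bdd_below f x y δ).isCoboundedUnder_le (bdd_above f x y δ')

lemma lowerPhi_nonneg (δ : ℝ) : 0 ≤ lowerPhi f x y δ :=
  le_lowerPhi f x y (Eventually.of_forall fun n => ratio_nonneg f x y δ n)

/-- A sufficient condition for a DC2½ pair. -/
lemma isDC25Pair_of (hxy : x ≠ y) (δ₀ a b : ℝ) (hδ₀ : 0 < δ₀) (hab : a < b)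
    (h1 : lowerPhi f x y δ₀ ≤ a) (h2 : ∀ δ, 0 < δ → b ≤ upperPhi f x y δ) :
    IsDC25Pair f x y := by
  refine ⟨hxy, _, _, (lowerPhi_mono f x y).tendsto_nhdsGT 0, (upperPhi_mono f x y).tendsto_nhdsGT 0,
    ?_⟩
  have e1 : sInf (lowerPhi f x y '' Ioi 0) ≤ a := by
    have hbdd : BddBelow (lowerPhi f x y '' Ioi 0) :=
      ⟨0, by rintro _ ⟨δ, -, rfl⟩; exact lowerPhi_nonneg f x y δ⟩
    have hmem : lowerPhi f x y δ₀ ∈ lowerPhi f x y '' Ioi 0 := ⟨δ₀, hδ₀, rfl⟩
    exact (csInf_le hbdd hmem).trans h1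
  have e2 : b ≤ sInf (upperPhi f x y '' Ioi 0) := by
    refine le_csInf (Set.nonempty_Ioi.image _) ?_
    rintro _ ⟨δ, hδ, rfl⟩
    exact h2 δ hδ
  linarith

end phi

/-! ### The map on the tree -/

variable {K : Set (ℕ → Bool)}

/-- The map on points of the tree: shift the branch and lower the height. -/
noncomputable def preMap (hK : ∀ x ∈ K, shift x ∈ K) (p : Pre K) : Pre K where
  pt := shift p.pt
  mem := hK _ p.mem
  ht := max 0 (2 * p.ht - 1)
  ht0 := le_max_left _ _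
  ht1 := max_le zero_le_one (by linarith [p.ht1])

lemma dist_preMap (hK : ∀ x ∈ K, shift x ∈ K) (p q : Pre K) :
    dist (preMap hK p) (preMap hK q) ≤ 2 * dist p q := by
  rw [dist_def, dist_def]
  set h := meet p q with hh
  have hp := meet_le_left p q
  have hq := meet_le_right p q
  have hr := meet_le_rho p q
  have hs := rho_shift p.pt q.pt
  have h1 : max 0 (2 * h - 1) ≤ meet (preMap hK p) (preMap hK q) := by
    apply le_meet
    · simp only [preMap]
      exact max_le_max le_rfl (by linarith)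
    · simp only [preMap]
      exact max_le_max le_rfl (by linarith)
    · simp only [preMap]
      apply max_le
      · linarith [rho_le_one (shift p.pt) (shift q.pt)]
      · linarith
  have h2 : ∀ a : ℝ, h ≤ a → max 0 (2 * a - 1) - max 0 (2 * h - 1) ≤ 2 * (a - h) := by
    intro a ha
    rcases le_total 0 (2 * h - 1) with h3 | h3
    · rw [max_eq_right h3, max_eq_right (by linarith)]
      linarith
    · rw [max_eq_left h3]
      rcases le_total 0 (2 * a - 1) with h4 | h4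
      · rw [max_eq_right h4]; linarith
      · rw [max_eq_left h4]; linarith
  have h3 := h2 p.ht hp
  have h4 := h2 q.ht hq
  have h5 : (preMap hK p).ht = max 0 (2 * p.ht - 1) := rfl
  have h6 : (preMap hK q).ht = max 0 (2 * q.ht - 1) := rfl
  rw [h5, h6]
  linarith

/-- The map on the tree. -/
noncomputable def hullMap (hK : ∀ x ∈ K, shift x ∈ K) : Hull K → Hull K :=
  SeparationQuotient.lift (fun p => cls (preMap hK p)) (by
    intro p q hpq
    have h1 : dist p q = 0 := Metric.inseparable_iff.mp hpq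
    have h2 := dist_preMap hK p q
    rw [h1, mul_zero] at h2
    exact SeparationQuotient.mk_eq_mk.mpr
      (Metric.inseparable_iff.mpr (le_antisymm h2 dist_nonneg)))

lemma hullMap_cls (hK : ∀ x ∈ K, shift x ∈ K) (p : Pre K) :
    hullMap hK (cls p) = cls (preMap hK p) := rfl

lemma hullMap_continuous (hK : ∀ x ∈ K, shift x ∈ K) : Continuous (hullMap hK) := by
  apply SeparationQuotient.continuous_lift
  refine SeparationQuotient.continuous_mk.comp ?_
  have : LipschitzWith 2 (preMap hK) := LipschitzWith.of_dist_le_mul fun p q => by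
    have := dist_preMap hK p q
    simpa using this
  exact this.continuous

lemma hullMap_iterate (hK : ∀ x ∈ K, shift x ∈ K) (p : Pre K) (k : ℕ) :
    (hullMap hK)^[k] (cls p) = cls ((preMap hK)^[k] p) := by
  induction k with
  | zero => rfl
  | succ k ih => rw [Function.iterate_succ_apply', ih, hullMap_cls, Function.iterate_succ_apply']

lemma preMap_iterate_pt (hK : ∀ x ∈ K, shift x ∈ K) (p : Pre K) (k : ℕ) :
    ((preMap hK)^[k] p).pt = shift^[k] p.pt := by
  induction k with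
  | zero => rfl
  | succ k ih =>
    rw [Function.iterate_succ_apply', Function.iterate_succ_apply', ← ih]
    rfl

lemma preMap_iterate_ht (hK : ∀ x ∈ K, shift x ∈ K) (p : Pre K) (k : ℕ) :
    ((preMap hK)^[k] p).ht = max 0 (1 - 2 ^ k * (1 - p.ht)) := by
  induction k with
  | zero => simp [p.ht0]
  | succ k ih =>
    rw [Function.iterate_succ_apply']
    have : (preMap hK ((preMap hK)^[k] p)).ht = max 0 (2 * ((preMap hK)^[k] p).ht - 1) := rfl
    rw [this, ih]
    rcases le_total 0 (1 - 2 ^ k * (1 - p.ht)) with h | h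
    · rw [max_eq_right h, pow_succ]
      congr 1; ring
    · rw [max_eq_left h]
      have h2 : 1 - 2 ^ (k + 1) * (1 - p.ht) ≤ 0 := by
        rw [pow_succ]
        have : (0 : ℝ) ≤ 2 ^ k * (1 - p.ht) := by
          have := p.ht1
          have h3 : (0 : ℝ) ≤ 1 - p.ht := by linarith
          positivity
        nlinarith
      rw [max_eq_left h2]
      norm_num

/-- The end point of a branch. -/
def endPt (x : ℕ → Bool) (hx : x ∈ K) : Pre K := ⟨x, hx, 1, zero_le_one, le_rfl⟩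

lemma dist_iterate_end (hK : ∀ x ∈ K, shift x ∈ K) (p q : Pre K) (hp : p.ht = 1) (hq : q.ht = 1)
    (k : ℕ) :
    dist ((hullMap hK)^[k] (cls p)) ((hullMap hK)^[k] (cls q)) =
      2 * rho (shift^[k] p.pt) (shift^[k] q.pt) := by
  rw [hullMap_iterate, hullMap_iterate, dist_cls]
  unfold meet
  rw [preMap_iterate_pt, preMap_iterate_pt, preMap_iterate_ht, preMap_iterate_ht, hp, hq]
  have := rho_nonneg (shift^[k] p.pt) (shift^[k] q.pt)
  simp only [sub_self, mul_zero, sub_zero, min_self]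
  rw [max_eq_right zero_le_one, min_eq_right (by linarith)]
  ring

lemma eventually_root (hK : ∀ x ∈ K, shift x ∈ K) (p : Pre K) (hp : p.ht < 1) :
    ∃ k₀, ∀ k, k₀ ≤ k → ((preMap hK)^[k] p).ht = 0 := by
  obtain ⟨k₀, hk₀⟩ := pow_unbounded_of_one_lt (1 / (1 - p.ht)) (one_lt_two)
  refine ⟨k₀, fun k hk => ?_⟩
  rw [preMap_iterate_ht]
  apply max_eq_left
  have h1 : (0 : ℝ) < 1 - p.ht := by linarith
  rw [div_lt_iff₀ h1] at hk₀
  have h2 : (2 : ℝ) ^ k₀ ≤ 2 ^ k := pow_le_pow_right₀ one_le_two hk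
  nlinarith

/-- Case 1: two points below the top are eventually both at the root. -/
lemma dist_eventually_zero (hK : ∀ x ∈ K, shift x ∈ K) (p q : Pre K) (hp : p.ht < 1)
    (hq : q.ht < 1) :
    ∃ k₀, ∀ k, k₀ ≤ k → dist ((hullMap hK)^[k] (cls p)) ((hullMap hK)^[k] (cls q)) = 0 := by
  obtain ⟨k₁, hk₁⟩ := eventually_root hK p hp
  obtain ⟨k₂, hk₂⟩ := eventually_root hK q hq
  refine ⟨max k₁ k₂, fun k hk => ?_⟩
  rw [hullMap_iterate, hullMap_iterate, dist_cls, hk₁ k (le_trans (le_max_left _ _) hk),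
    hk₂ k (le_trans (le_max_right _ _) hk)]
  have h1 := meet_nonneg ((preMap hK)^[k] p) ((preMap hK)^[k] q)
  have h2 := meet_le_left ((preMap hK)^[k] p) ((preMap hK)^[k] q)
  rw [hk₁ k (le_trans (le_max_left _ _) hk)] at h2
  linarith

/-- Case 2: a top point and a point below the top are eventually at distance one. -/
lemma dist_eventually_one (hK : ∀ x ∈ K, shift x ∈ K) (p q : Pre K) (hp : p.ht = 1)
    (hq : q.ht < 1) :
    ∃ k₀, ∀ k, k₀ ≤ k → dist ((hullMap hK)^[k] (cls p)) ((hullMap hK)^[k] (cls q)) = 1 := by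
  obtain ⟨k₂, hk₂⟩ := eventually_root hK q hq
  refine ⟨k₂, fun k hk => ?_⟩
  rw [hullMap_iterate, hullMap_iterate, dist_cls, hk₂ k hk, preMap_iterate_ht, hp]
  have h1 := meet_nonneg ((preMap hK)^[k] p) ((preMap hK)^[k] q)
  have h2 := meet_le_right ((preMap hK)^[k] p) ((preMap hK)^[k] q)
  rw [hk₂ k hk] at h2
  simp only [sub_self, mul_zero, sub_zero, add_zero]
  rw [max_eq_right zero_le_one]
  linarith

/-- If the exceptional times have density zero then the lower distribution function is at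
least one. -/
lemma one_le_lowerPhi {X : Type} [MetricSpace X] (f : X → X) (x y : X) (ε : ℝ) (b : ℕ → ℝ)
    (hb : Tendsto (fun n : ℕ => b n / n) atTop (𝓝 0))
    (h : ∀ n, (({k : ℕ | k ≤ n ∧ ¬ dist (f^[k] x) (f^[k] y) < ε}.ncard : ℕ) : ℝ) ≤ b n) :
    1 ≤ lowerPhi f x y ε := by
  apply le_of_forall_lt_imp_le_of_dense
  intro a ha
  apply le_lowerPhi
  filter_upwards [hb.eventually_lt_const (show (0 : ℝ) < 1 - a by linarith), eventually_gt_atTop 0]
    with n hn hn0
  have hn' : (0 : ℝ) < n := by exact_mod_cast hn0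
  have hsum : closeCount f x y ε n +
      {k : ℕ | k ≤ n ∧ ¬ dist (f^[k] x) (f^[k] y) < ε}.ncard = n + 1 := by
    unfold closeCount
    have hfin2 : {k : ℕ | k ≤ n ∧ ¬ dist (f^[k] x) (f^[k] y) < ε}.Finite := by
      refine (Finset.finite_toSet (Finset.range (n + 1))).subset ?_
      intro k hk
      rw [Finset.coe_range, Set.mem_Iio]
      have := hk.1
      omega
    rw [← Set.ncard_union_eq ?_ (close_finite f x y ε n) hfin2]
    · have : {k : ℕ | k ≤ n ∧ dist (f^[k] x) (f^[k] y) < ε} ∪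
          {k : ℕ | k ≤ n ∧ ¬ dist (f^[k] x) (f^[k] y) < ε} = (Finset.range (n + 1) : Set ℕ) := by
        ext k
        simp only [Set.mem_union, Set.mem_ofPred_eq, Finset.coe_range, Set.mem_Iio]
        constructor
        · rintro (h1 | h1) <;> omega
        · intro h1
          by_cases h2 : dist (f^[k] x) (f^[k] y) < ε
          · exact Or.inl ⟨by omega, h2⟩
          · exact Or.inr ⟨by omega, h2⟩
      rw [this, Set.ncard_coe_finset, Finset.card_range]
    · rw [Set.disjoint_left]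
      rintro k ⟨_, h1⟩ ⟨_, h2⟩
      exact h2 h1
  have hsum' : (closeCount f x y ε n : ℝ) +
      (({k : ℕ | k ≤ n ∧ ¬ dist (f^[k] x) (f^[k] y) < ε}.ncard : ℕ) : ℝ) = n + 1 := by
    exact_mod_cast hsum
  have h1 := h n
  rw [div_lt_iff₀ hn'] at hn
  rw [le_div_iff₀ hn']
  linarith

/-- If the distance is eventually zero then the lower distribution function is at least one. -/
lemma lowerPhi_of_eventually_zero {X : Type} [MetricSpace X] (f : X → X) (x y : X) (k₀ : ℕ)
    (h : ∀ k, k₀ ≤ k → dist (f^[k] x) (f^[k] y) = 0) (ε : ℝ) (hε : 0 < ε) :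
    1 ≤ lowerPhi f x y ε := by
  refine one_le_lowerPhi f x y ε (fun _ => k₀) ?_ ?_
  · exact tendsto_const_div_atTop_nhds_zero_nat _
  · intro n
    have h1 : {k : ℕ | k ≤ n ∧ ¬ dist (f^[k] x) (f^[k] y) < ε} ⊆ (Finset.range k₀ : Set ℕ) := by
      rintro k ⟨_, hk⟩
      rw [Finset.coe_range, Set.mem_Iio]
      by_contra h0
      apply hk
      rw [h k (not_lt.mp h0)]
      exact hε
    have h2 := Set.ncard_le_ncard h1 (Finset.finite_toSet _)
    rw [Set.ncard_coe_finset, Finset.card_range] at h2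
    exact_mod_cast h2

/-- The close times avoid a set of far times. -/
lemma closeCount_add_le {X : Type} [MetricSpace X] (f : X → X) (x y : X) (δ : ℝ) (n : ℕ)
    (F : Finset ℕ) (hF : ∀ k ∈ F, k ≤ n ∧ δ ≤ dist (f^[k] x) (f^[k] y)) :
    closeCount f x y δ n + F.card ≤ n + 1 := by
  unfold closeCount
  rw [← Set.ncard_coe_finset F, ← Set.ncard_union_eq ?_ (close_finite f x y δ n)
    (Finset.finite_toSet _)]
  · have : {k : ℕ | k ≤ n ∧ dist (f^[k] x) (f^[k] y) < δ} ∪ (F : Set ℕ) ⊆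
        (Finset.range (n + 1) : Set ℕ) := by
      rintro k (hk | hk)
      · exact close_subset f x y δ n hk
      · rw [Finset.coe_range, Set.mem_Iio]
        have := (hF k hk).1
        omega
    refine (Set.ncard_le_ncard this (Finset.finite_toSet _)).trans ?_
    rw [Set.ncard_coe_finset, Finset.card_range]
  · rw [Set.disjoint_left]
    rintro k ⟨_, h1⟩ h2
    exact absurd h1 (not_lt.mpr (hF k h2).2)

/-- The close times contain a set of near times. -/
lemma le_closeCount {X : Type} [MetricSpace X] (f : X → X) (x y : X) (δ : ℝ) (n : ℕ)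
    (F : Finset ℕ) (hF : ∀ k ∈ F, k ≤ n ∧ dist (f^[k] x) (f^[k] y) < δ) :
    F.card ≤ closeCount f x y δ n := by
  unfold closeCount
  rw [← Set.ncard_coe_finset F]
  exact Set.ncard_le_ncard (fun k hk => hF k hk) (close_finite f x y δ n)

/-- If the distance is eventually at least `δ` then the upper distribution function is small. -/
lemma upperPhi_of_eventually_ge {X : Type} [MetricSpace X] (f : X → X) (x y : X) (k₀ : ℕ) (δ : ℝ)
    (h : ∀ k, k₀ ≤ k → δ ≤ dist (f^[k] x) (f^[k] y)) :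
    upperPhi f x y δ ≤ 1 / 2 := by
  apply upperPhi_le
  filter_upwards [eventually_ge_atTop (2 * k₀ + 1)] with n hn
  have h1 := closeCount_add_le f x y δ n (Finset.Ico k₀ (n + 1)) (by
    intro k hk
    rw [Finset.mem_Ico] at hk
    exact ⟨by omega, h k hk.1⟩)
  rw [Nat.card_Ico] at h1
  have h2 : 2 * closeCount f x y δ n ≤ n := by omega
  have h3 : (2 : ℝ) * closeCount f x y δ n ≤ n := by exact_mod_cast h2
  have h4 : (0 : ℝ) < n := by exact_mod_cast (by omega : 0 < n)
  rw [div_le_iff₀ h4]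
  linarith

/-! ### Phases -/

/-- On the phase `[4^s, 4^(s+1))`, up to a bounded boundary layer, the sequence `x` is constantly
equal to `c s`. -/
def HasPhase (x : ℕ → Bool) (c : ℕ → Bool) (i : ℕ) : Prop :=
  ∀ s k : ℕ, i ≤ 4 ^ s → 4 ^ s ≤ k → k + i < 4 ^ (s + 1) → x k = c s

lemma HasPhase.mono {x c : ℕ → Bool} {i j : ℕ} (h : HasPhase x c i) (hij : i ≤ j) :
    HasPhase x c j := fun s k h1 h2 h3 => h s k (hij.trans h1) h2 (by omega)

lemma iter_zero (x : ℕ → Bool) (k : ℕ) : (shift^[k] x) 0 = x k := by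
  rw [shift_iterate, zero_add]

/-- Different symbols on infinitely many phases, with bounded gaps: the upper distribution
function is less than one. -/
lemma upperPhi_lt_one (hK : ∀ x ∈ K, shift x ∈ K) (p q : Pre K) (hp : p.ht = 1) (hq : q.ht = 1)
    (c c' : ℕ → Bool) (i : ℕ) (hpc : HasPhase p.pt c i) (hqc : HasPhase q.pt c' i) (G : ℕ)
    (hG : ∀ s₀, ∃ s, s₀ ≤ s ∧ s < s₀ + G ∧ c s ≠ c' s) :
    upperPhi (hullMap hK) (cls p) (cls q) 1 < 1 := by
  have hg : (0 : ℝ) < 4 ^ (G + 1) := by positivity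
  refine lt_of_le_of_lt (b := 1 - 1 / 4 ^ (G + 1)) ?_ (by
    have : (0 : ℝ) < 1 / 4 ^ (G + 1) := by positivity
    linarith)
  apply upperPhi_le
  filter_upwards [eventually_ge_atTop (4 ^ (G + i + 1))] with n hn
  have hn1 : n + 1 ≠ 0 := by omega
  have hlog : G + i + 1 ≤ Nat.log 4 (n + 1) := by
    apply Nat.le_log_of_pow_le (by norm_num)
    omega
  obtain ⟨s₀, hs₀⟩ : ∃ s₀, Nat.log 4 (n + 1) = s₀ + G := ⟨Nat.log 4 (n + 1) - G, by omega⟩
  have h1 : 4 ^ (s₀ + G) ≤ n + 1 := by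
    rw [← hs₀]; exact Nat.pow_log_le_self 4 hn1
  have h2 : n + 1 < 4 ^ (s₀ + G + 1) := by
    rw [← hs₀]; exact Nat.lt_pow_succ_log_self (by norm_num) _
  obtain ⟨s, hs1, hs2, hs3⟩ := hG s₀
  have h3 : i ≤ 4 ^ s := by
    have e1 : i < 4 ^ i := Nat.lt_pow_self (by norm_num)
    have e2 : 4 ^ i ≤ 4 ^ s := Nat.pow_le_pow_right (by norm_num) (by omega)
    omega
  have h4 : 4 ^ (s + 1) ≤ n + 1 := le_trans (Nat.pow_le_pow_right (by norm_num) (by omega)) h1
  have h5 := closeCount_add_le (hullMap hK) (cls p) (cls q) 1 n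
    (Finset.Ico (4 ^ s) (4 ^ (s + 1) - i)) (by
      intro k hk
      rw [Finset.mem_Ico] at hk
      refine ⟨by omega, ?_⟩
      rw [dist_iterate_end hK p q hp hq k, rho_eq_one]
      · norm_num
      · rw [iter_zero, iter_zero, hpc s k h3 hk.1 (by omega), hqc s k h3 hk.1 (by omega)]
        exact hs3)
  rw [Nat.card_Ico] at h5
  have h6 : 4 ^ (s + 1) = 4 * 4 ^ s := by rw [pow_succ]; ring
  have h7 : closeCount (hullMap hK) (cls p) (cls q) 1 n + 2 * 4 ^ s ≤ n + 1 := by omega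
  have h8 : 4 ^ s₀ ≤ 4 ^ s := Nat.pow_le_pow_right (by norm_num) hs1
  have h9 : closeCount (hullMap hK) (cls p) (cls q) 1 n + 2 * 4 ^ s₀ ≤ n + 1 := by omega
  have h10 : (closeCount (hullMap hK) (cls p) (cls q) 1 n : ℝ) + 2 * 4 ^ s₀ ≤ n + 1 := by
    exact_mod_cast h9
  have h11 : (n : ℝ) + 1 < 4 ^ s₀ * 4 ^ (G + 1) := by
    have : (n : ℝ) + 1 < 4 ^ (s₀ + G + 1) := by exact_mod_cast h2
    rw [← pow_add, ← add_assoc]
    exact this
  have h12 : (4 : ℝ) ^ (G + 1) ≤ n := by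
    have : 4 ^ (G + 1) ≤ n := le_trans (Nat.pow_le_pow_right (by norm_num) (by omega)) hn
    exact_mod_cast this
  have hn0 : (0 : ℝ) < n := lt_of_lt_of_le hg h12
  rw [div_le_iff₀ hn0]
  have h13 : ((n : ℝ) + 1) / 4 ^ (G + 1) < 4 ^ s₀ := by
    rw [div_lt_iff₀ hg]; exact h11
  have h14 : 1 ≤ (n : ℝ) / 4 ^ (G + 1) := by
    rw [le_div_iff₀ hg]; linarith
  have h15 : (1 - 1 / 4 ^ (G + 1)) * (n : ℝ) = n - n / 4 ^ (G + 1) := by ring
  have h16 : (n : ℝ) / 4 ^ (G + 1) ≤ (n + 1) / 4 ^ (G + 1) := by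
    apply div_le_div_of_nonneg_right (by linarith) hg.le
  rw [h15]
  linarith

/-- Equal symbols on infinitely many phases. -/
lemma le_upperPhi_of_frequently (hK : ∀ x ∈ K, shift x ∈ K) (p q : Pre K) (hp : p.ht = 1)
    (hq : q.ht = 1) (c c' : ℕ → Bool) (i : ℕ) (hpc : HasPhase p.pt c i)
    (hqc : HasPhase q.pt c' i) (hG : ∃ᶠ s in atTop, c s = c' s) (δ : ℝ) (hδ : 0 < δ) :
    5 / 8 ≤ upperPhi (hullMap hK) (cls p) (cls q) δ := by
  obtain ⟨N, hN⟩ := exists_pow_lt_of_lt_one (show 0 < δ / 2 by positivity)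
    (show (1 / 2 : ℝ) < 1 by norm_num)
  apply le_upperPhi
  rw [Filter.frequently_atTop]
  intro n₀
  obtain ⟨s, hs, hcs⟩ := Filter.frequently_atTop.mp hG (n₀ + 2 * (i + N) + 1)
  have hs4 : s < 4 ^ s := Nat.lt_pow_self (by norm_num)
  have h6 : 4 ^ (s + 1) = 4 * 4 ^ s := by rw [pow_succ]; ring
  refine ⟨4 ^ (s + 1) - 1, by omega, ?_⟩
  have h5 := le_closeCount (hullMap hK) (cls p) (cls q) δ (4 ^ (s + 1) - 1)
    (Finset.Ico (4 ^ s) (4 ^ (s + 1) - (i + N))) (by
      intro k hk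
      rw [Finset.mem_Ico] at hk
      refine ⟨by omega, ?_⟩
      rw [dist_iterate_end hK p q hp hq k]
      have : rho (shift^[k] p.pt) (shift^[k] q.pt) ≤ (1 / 2) ^ N := by
        rw [rho_le_iff]
        intro r hr
        rw [shift_iterate, shift_iterate, hpc s (r + k) (by omega) (by omega) (by omega),
          hqc s (r + k) (by omega) (by omega) (by omega)]
        exact hcs
      linarith)
  rw [Nat.card_Ico] at h5
  have h7 : 5 * 4 ^ (s + 1) ≤ 8 * closeCount (hullMap hK) (cls p) (cls q) δ (4 ^ (s + 1) - 1) := by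
    omega
  have h8 : (0 : ℝ) < ((4 ^ (s + 1) - 1 : ℕ) : ℝ) := by
    exact_mod_cast (by omega : 0 < 4 ^ (s + 1) - 1)
  rw [le_div_iff₀ h8]
  have h9 : (((4 ^ (s + 1) - 1 : ℕ) : ℕ) : ℝ) ≤ ((4 ^ (s + 1) : ℕ) : ℝ) := by
    exact_mod_cast Nat.sub_le _ _
  have h10 : (5 : ℝ) * ((4 ^ (s + 1) : ℕ) : ℝ) ≤
      8 * closeCount (hullMap hK) (cls p) (cls q) δ (4 ^ (s + 1) - 1) := by exact_mod_cast h7
  linarith

/-- Different symbols on infinitely many phases. -/
lemma lowerPhi_le_of_frequently (hK : ∀ x ∈ K, shift x ∈ K) (p q : Pre K) (hp : p.ht = 1)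
    (hq : q.ht = 1) (c c' : ℕ → Bool) (i : ℕ) (hpc : HasPhase p.pt c i)
    (hqc : HasPhase q.pt c' i) (hG : ∃ᶠ s in atTop, c s ≠ c' s) :
    lowerPhi (hullMap hK) (cls p) (cls q) 1 ≤ 1 / 2 := by
  apply lowerPhi_le
  rw [Filter.frequently_atTop]
  intro n₀
  obtain ⟨s, hs, hcs⟩ := Filter.frequently_atTop.mp hG (n₀ + 2 * i + 1)
  have hs4 : s < 4 ^ s := Nat.lt_pow_self (by norm_num)
  have h6 : 4 ^ (s + 1) = 4 * 4 ^ s := by rw [pow_succ]; ring
  refine ⟨4 ^ (s + 1) - 1, by omega, ?_⟩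
  have h5 := closeCount_add_le (hullMap hK) (cls p) (cls q) 1 (4 ^ (s + 1) - 1)
    (Finset.Ico (4 ^ s) (4 ^ (s + 1) - i)) (by
      intro k hk
      rw [Finset.mem_Ico] at hk
      refine ⟨by omega, ?_⟩
      rw [dist_iterate_end hK p q hp hq k, rho_eq_one]
      · norm_num
      · rw [iter_zero, iter_zero, hpc s k (by omega) hk.1 (by omega),
          hqc s k (by omega) hk.1 (by omega)]
        exact hcs)
  rw [Nat.card_Ico] at h5
  have h7 : 2 * closeCount (hullMap hK) (cls p) (cls q) 1 (4 ^ (s + 1) - 1) ≤ 4 ^ (s + 1) - 1 := by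
    omega
  have h8 : (0 : ℝ) < ((4 ^ (s + 1) - 1 : ℕ) : ℝ) := by
    exact_mod_cast (by omega : 0 < 4 ^ (s + 1) - 1)
  rw [div_le_iff₀ h8]
  have h10 : 2 * (closeCount (hullMap hK) (cls p) (cls q) 1 (4 ^ (s + 1) - 1) : ℝ) ≤
      ((4 ^ (s + 1) - 1 : ℕ) : ℝ) := by exact_mod_cast h7
  linarith

lemma log_le_sqrt (n : ℕ) (hn : n ≠ 0) : (Nat.log 4 n : ℝ) ≤ Real.sqrt n := by
  apply Real.le_sqrt_of_sq_le
  have h1 : Nat.log 4 n < 2 ^ Nat.log 4 n := Nat.lt_pow_self (by norm_num)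
  have h2 : (Nat.log 4 n) ^ 2 ≤ (2 ^ Nat.log 4 n) ^ 2 := Nat.pow_le_pow_left h1.le 2
  have h3 : (2 ^ Nat.log 4 n) ^ 2 = 4 ^ Nat.log 4 n := by
    rw [← pow_mul, mul_comm, pow_mul]; norm_num
  have h4 := Nat.pow_log_le_self 4 hn
  rw [h3] at h2
  exact_mod_cast h2.trans h4

lemma tendsto_log_ratio (A B : ℝ) (hA : 0 ≤ A) (hB : 0 ≤ B) :
    Tendsto (fun n : ℕ => (A + ((Nat.log 4 n : ℝ) + 1) * B) / n) atTop (𝓝 0) := by
  have h1 : Tendsto (fun n : ℕ => (A + 2 * B) / Real.sqrt n) atTop (𝓝 0) :=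
    (Real.tendsto_sqrt_atTop.comp tendsto_natCast_atTop_atTop).const_div_atTop _
  refine squeeze_zero' (Eventually.of_forall fun n => by positivity) ?_ h1
  filter_upwards [eventually_ge_atTop 1] with n hn
  have hn1 : (1 : ℝ) ≤ n := by exact_mod_cast hn
  have hs1 : 1 ≤ Real.sqrt n := by
    rw [Real.one_le_sqrt]; exact hn1
  have hss : Real.sqrt n * Real.sqrt n = n := Real.mul_self_sqrt (by linarith)
  have hl := log_le_sqrt n (by omega)
  rw [div_le_div_iff₀ (by linarith) (by linarith)]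
  have h2 : A + ((Nat.log 4 n : ℝ) + 1) * B ≤ (A + 2 * B) * Real.sqrt n := by
    have e1 : A ≤ A * Real.sqrt n := by nlinarith
    have e2 : ((Nat.log 4 n : ℝ) + 1) * B ≤ (2 * Real.sqrt n) * B :=
      mul_le_mul_of_nonneg_right (by linarith) hB
    nlinarith
  calc (A + ((Nat.log 4 n : ℝ) + 1) * B) * Real.sqrt n ≤
      ((A + 2 * B) * Real.sqrt n) * Real.sqrt n :=
        mul_le_mul_of_nonneg_right h2 (by linarith)
    _ = (A + 2 * B) * n := by rw [mul_assoc, hss]

/-- The same symbols on all phases. -/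
lemma one_le_lowerPhi_of_same (hK : ∀ x ∈ K, shift x ∈ K) (p q : Pre K) (hp : p.ht = 1)
    (hq : q.ht = 1) (c : ℕ → Bool) (i : ℕ) (hpc : HasPhase p.pt c i)
    (hqc : HasPhase q.pt c i) (ε : ℝ) (hε : 0 < ε) :
    1 ≤ lowerPhi (hullMap hK) (cls p) (cls q) ε := by
  obtain ⟨N, hN⟩ := exists_pow_lt_of_lt_one (show 0 < ε / 2 by positivity)
    (show (1 / 2 : ℝ) < 1 by norm_num)
  refine one_le_lowerPhi _ _ _ ε
    (fun n => (4 * i + 1) + ((Nat.log 4 n : ℝ) + 1) * (N + i)) ?_ ?_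
  · exact tendsto_log_ratio _ _ (by positivity) (by positivity)
  · intro n
    have hsub : {k : ℕ | k ≤ n ∧ ¬ dist ((hullMap hK)^[k] (cls p)) ((hullMap hK)^[k] (cls q)) < ε}
        ⊆ ((Finset.range (4 * i + 1) ∪ (Finset.range (Nat.log 4 n + 1)).biUnion
          (fun s => Finset.Ico (4 ^ (s + 1) - (N + i)) (4 ^ (s + 1))) : Finset ℕ) : Set ℕ) := by
      rintro k ⟨hk1, hk2⟩
      rw [Finset.coe_union, Set.mem_union]
      by_contra hcon
      push Not at hcon
      obtain ⟨hc1, hc2⟩ := hcon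
      apply hk2
      rw [Finset.coe_range, Set.mem_Iio, not_lt] at hc1
      have hk0 : k ≠ 0 := by omega
      have hl1 := Nat.pow_log_le_self 4 hk0
      have hl2 := Nat.lt_pow_succ_log_self (b := 4) (by norm_num) k
      set s := Nat.log 4 k with hs
      have hsn : s ≤ Nat.log 4 n := Nat.log_mono_right hk1
      have h6 : 4 ^ (s + 1) = 4 * 4 ^ s := by rw [pow_succ]; ring
      have hc3 : k + (N + i) < 4 ^ (s + 1) := by
        by_contra h0
        apply hc2
        rw [Finset.mem_coe, Finset.mem_biUnion]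
        refine ⟨s, Finset.mem_range.mpr (by omega), ?_⟩
        rw [Finset.mem_Ico]
        omega
      rw [dist_iterate_end hK p q hp hq k]
      have : rho (shift^[k] p.pt) (shift^[k] q.pt) ≤ (1 / 2) ^ N := by
        rw [rho_le_iff]
        intro r hr
        rw [shift_iterate, shift_iterate, hpc s (r + k) (by omega) (by omega) (by omega),
          hqc s (r + k) (by omega) (by omega) (by omega)]
      linarith
    have hcard := Set.ncard_le_ncard hsub (Finset.finite_toSet _)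
    rw [Set.ncard_coe_finset] at hcard
    have h2 : ((Finset.range (4 * i + 1) ∪ (Finset.range (Nat.log 4 n + 1)).biUnion
          (fun s => Finset.Ico (4 ^ (s + 1) - (N + i)) (4 ^ (s + 1))) : Finset ℕ)).card ≤
          (4 * i + 1) + (Nat.log 4 n + 1) * (N + i) := by
      refine (Finset.card_union_le _ _).trans ?_
      rw [Finset.card_range]
      refine Nat.add_le_add_left ?_ _
      refine Finset.card_biUnion_le_card_mul _ _ _ ?_ |>.trans (by rw [Finset.card_range])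
      intro s _
      rw [Nat.card_Ico]
      omega
    exact_mod_cast hcard.trans h2

end Pool.Agent.Lib.MP_fd67f7_an
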