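import Pool.Agent.Lib.MP_fd67f7_an.Defs

set_option autoImplicit false

open Filter Topology Set

namespace Pool.Agent.Lib.MP_fd67f7_an

/-- The standard ultrametric on `{0,1}^ℕ`. -/
noncomputable def rho (x y : ℕ → Bool) : ℝ := @dist _ PiNat.dist x y

lemma rho_self (x : ℕ → Bool) : rho x x = 0 := PiNat.dist_self x

lemma rho_comm (x y : ℕ → Bool) : rho x y = rho y x := PiNat.dist_comm x y

lemma rho_nonneg (x y : ℕ → Bool) : 0 ≤ rho x y := PiNat.dist_nonneg x y

lemma rho_le_one (x y : ℕ → Bool) : rho x y ≤ 1 := PiNat.dist_le_one x y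

lemma rho_ultra (x y z : ℕ → Bool) : rho x z ≤ max (rho x y) (rho y z) :=
  PiNat.dist_triangle_nonarch x y z

lemma rho_eq_zero {x y : ℕ → Bool} (h : rho x y = 0) : x = y := PiNat.eq_of_dist_eq_zero x y h

lemma rho_le_iff (x y : ℕ → Bool) (n : ℕ) : rho x y ≤ (1 / 2) ^ n ↔ ∀ i < n, x i = y i := by
  rw [rho_comm]
  have := (PiNat.mem_cylinder_iff_dist_le (x := y) (y := x) (n := n))
  rw [PiNat.mem_cylinder_iff] at this
  rw [rho_comm]
  exact this.symm

lemma rho_eq_one {x y : ℕ → Bool} (h : x 0 ≠ y 0) : rho x y = 1 := by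
  have h1 := rho_le_one x y
  have hne : x ≠ y := fun h0 => h (by rw [h0])
  have h2 : rho x y = (1 / 2) ^ PiNat.firstDiff x y := PiNat.dist_eq_of_ne hne
  have h3 : PiNat.firstDiff x y = 0 := by
    by_contra h0
    exact h (PiNat.apply_eq_of_lt_firstDiff (Nat.pos_of_ne_zero h0))
  rw [h2, h3, pow_zero]

/-- The shift. -/
def shift (x : ℕ → Bool) : ℕ → Bool := fun n => x (n + 1)

lemma shift_iterate (x : ℕ → Bool) (k n : ℕ) : (shift^[k] x) n = x (n + k) := by
  induction k generalizing n x with
  | zero => rfl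
  | succ k ih =>
    rw [Function.iterate_succ_apply, ih]
    simp only [shift]
    congr 1

lemma rho_shift (x y : ℕ → Bool) : rho (shift x) (shift y) ≤ 2 * rho x y := by
  by_cases hxy : x = y
  · subst hxy
    rw [rho_self, rho_self]; norm_num
  · have h2 : rho x y = (1 / 2) ^ PiNat.firstDiff x y := PiNat.dist_eq_of_ne hxy
    rcases Nat.eq_zero_or_pos (PiNat.firstDiff x y) with h0 | h0
    · rw [h2, h0, pow_zero]
      linarith [rho_le_one (shift x) (shift y)]
    · obtain ⟨m, hm⟩ : ∃ m, PiNat.firstDiff x y = m + 1 := ⟨_, (Nat.succ_pred_eq_of_pos h0).symm⟩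
      rw [h2, hm]
      have h3 : rho (shift x) (shift y) ≤ (1 / 2) ^ m := by
        rw [rho_le_iff]
        intro i hi
        have h4 : i + 1 < PiNat.firstDiff x y := by omega
        have h5 : x (i + 1) = y (i + 1) := PiNat.apply_eq_of_lt_firstDiff h4
        exact h5
      refine h3.trans (le_of_eq ?_)
      rw [pow_succ]; ring

/-- Points of the (unreduced) tree over `K`: a branch `pt` and a height `ht`. -/
structure Pre (K : Set (ℕ → Bool)) where
  pt : ℕ → Bool
  mem : pt ∈ K
  ht : ℝ
  ht0 : 0 ≤ ht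
  ht1 : ht ≤ 1

variable {K : Set (ℕ → Bool)}

/-- The height of the meet of two points. -/
noncomputable def meet (p q : Pre K) : ℝ := min (min p.ht q.ht) (1 - rho p.pt q.pt)

lemma meet_comm (p q : Pre K) : meet p q = meet q p := by
  unfold meet
  rw [rho_comm, min_comm p.ht q.ht]

lemma meet_self (p : Pre K) : meet p p = p.ht := by
  unfold meet
  rw [rho_self, min_self, sub_zero, min_eq_left p.ht1]

lemma meet_le_left (p q : Pre K) : meet p q ≤ p.ht := (min_le_left _ _).trans (min_le_left _ _)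

lemma meet_le_right (p q : Pre K) : meet p q ≤ q.ht := (min_le_left _ _).trans (min_le_right _ _)

lemma meet_le_rho (p q : Pre K) : meet p q ≤ 1 - rho p.pt q.pt := min_le_right _ _

lemma le_meet {p q : Pre K} {a : ℝ} (h1 : a ≤ p.ht) (h2 : a ≤ q.ht)
    (h3 : a ≤ 1 - rho p.pt q.pt) : a ≤ meet p q := le_min (le_min h1 h2) h3

lemma meet_nonneg (p q : Pre K) : 0 ≤ meet p q :=
  le_meet p.ht0 q.ht0 (by linarith [rho_le_one p.pt q.pt])

lemma meet_ultra (p q r : Pre K) : min (meet p q) (meet q r) ≤ meet p r := by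
  refine le_meet ((min_le_left _ _).trans (meet_le_left p q))
    ((min_le_right _ _).trans (meet_le_right q r)) ?_
  have h1 := rho_ultra p.pt q.pt r.pt
  have h2 := meet_le_rho p q
  have h3 := meet_le_rho q r
  rcases le_total (rho p.pt q.pt) (rho q.pt r.pt) with h | h
  · rw [max_eq_right h] at h1
    exact (min_le_right _ _).trans (by linarith)
  · rw [max_eq_left h] at h1
    exact (min_le_left _ _).trans (by linarith)

/-- The tree distance. -/
noncomputable def tdist (p q : Pre K) : ℝ := p.ht + q.ht - 2 * meet p q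

lemma tdist_nonneg (p q : Pre K) : 0 ≤ tdist p q := by
  unfold tdist
  linarith [meet_le_left p q, meet_le_right p q]

lemma tdist_triangle (p q r : Pre K) : tdist p r ≤ tdist p q + tdist q r := by
  unfold tdist
  have h1 := meet_ultra p q r
  have h2 := meet_le_right p q
  have h3 := meet_le_left q r
  rcases le_total (meet p q) (meet q r) with h | h
  · rw [min_eq_left h] at h1
    linarith
  · rw [min_eq_right h] at h1
    linarith

noncomputable instance : PseudoMetricSpace (Pre K) where
  dist p q := tdist p q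
  dist_self p := by simp only [tdist, meet_self]; ring
  dist_comm p q := by simp only [tdist, meet_comm p q]; ring
  dist_triangle := tdist_triangle

lemma dist_def (p q : Pre K) : dist p q = p.ht + q.ht - 2 * meet p q := rfl

/-- The tree over `K`. -/
abbrev Hull (K : Set (ℕ → Bool)) : Type := SeparationQuotient (Pre K)

/-- the class of a point -/
noncomputable def cls (p : Pre K) : Hull K := SeparationQuotient.mk p

lemma dist_cls (p q : Pre K) : dist (cls p) (cls q) = p.ht + q.ht - 2 * meet p q :=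
  SeparationQuotient.dist_mk p q

lemma cls_surj (a : Hull K) : ∃ p : Pre K, cls p = a := SeparationQuotient.surjective_mk a

/-- Lowering a point along its branch. -/
def lower (p : Pre K) (r : ℝ) (h0 : 0 ≤ r) (h1 : r ≤ 1) : Pre K := ⟨p.pt, p.mem, r, h0, h1⟩

lemma meet_lower (p : Pre K) (r s : ℝ) (h0 : 0 ≤ r) (h1 : r ≤ 1) (k0 : 0 ≤ s) (k1 : s ≤ 1) :
    meet (lower p r h0 h1) (lower p s k0 k1) = min r s := by
  unfold meet lower
  simp only
  rw [rho_self, sub_zero, min_eq_left]
  exact (min_le_left _ _).trans h1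

/-- The path from the root along a branch. -/
noncomputable def path (p : Pre K) (r : Icc (0 : ℝ) 1) : Hull K := cls (lower p r.1 r.2.1 r.2.2)

lemma dist_path (p : Pre K) (r s : Icc (0 : ℝ) 1) : dist (path p r) (path p s) = |(r : ℝ) - s| := by
  unfold path
  rw [dist_cls, meet_lower]
  simp only [lower]
  rcases le_total (r : ℝ) s with h | h
  · rw [min_eq_left h, abs_of_nonpos (by linarith)]; ring
  · rw [min_eq_right h, abs_of_nonneg (by linarith)]; ring

lemma path_isometry (p : Pre K) : Isometry (path p) := by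
  refine Isometry.of_dist_eq fun r s => ?_
  rw [dist_path, Subtype.dist_eq, Real.dist_eq]

lemma path_ht (p : Pre K) : path p ⟨p.ht, p.ht0, p.ht1⟩ = cls p := rfl

/-- The segment between heights `a` and `b` on the branch of `p` is connected. -/
lemma segment_preconnected (p : Pre K) (a b : ℝ) :
    IsPreconnected (path p '' {r : Icc (0 : ℝ) 1 | a ≤ r ∧ (r : ℝ) ≤ b}) := by
  refine IsPreconnected.image ?_ _ (path_isometry p).continuous.continuousOn
  have : OrdConnected {r : Icc (0 : ℝ) 1 | a ≤ r ∧ (r : ℝ) ≤ b} := by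
    constructor
    intro x hx y hy z hz
    exact ⟨hx.1.trans (by exact_mod_cast hz.1), le_trans (by exact_mod_cast hz.2) hy.2⟩
  exact this.isPreconnected


lemma cls_eq_iff (p q : Pre K) : cls p = cls q ↔ p.ht + q.ht - 2 * meet p q = 0 := by
  rw [← dist_cls, dist_eq_zero]

lemma path_eq_path (p q : Pre K) (r : Icc (0 : ℝ) 1) (h : (r : ℝ) ≤ 1 - rho p.pt q.pt) :
    path p r = path q r := by
  unfold path
  rw [cls_eq_iff]
  have : meet (lower p r.1 r.2.1 r.2.2) (lower q r.1 r.2.1 r.2.2) = r := by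
    unfold meet lower
    simp only
    rw [min_self, min_eq_left h]
  rw [this]
  simp only [lower]
  ring

lemma ball_preconnected (a : Hull K) (ε : ℝ) : IsPreconnected (Metric.ball a ε) := by
  refine isPreconnected_of_forall a ?_
  intro b hb
  obtain ⟨p, rfl⟩ := cls_surj a
  obtain ⟨q, rfl⟩ := cls_surj b
  set h := meet p q with hh
  have hd : p.ht + q.ht - 2 * h < ε := by
    rw [Metric.mem_ball, dist_comm, dist_cls] at hb; exact hb
  have hp := meet_le_left p q
  have hq := meet_le_right p q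
  have h0 := meet_nonneg p q
  have hrho := meet_le_rho p q
  have h1 : h ≤ 1 := hp.trans p.ht1
  let hI : Icc (0 : ℝ) 1 := ⟨h, h0, h1⟩
  refine ⟨path p '' {r : Icc (0 : ℝ) 1 | h ≤ r ∧ (r : ℝ) ≤ p.ht} ∪
    path q '' {r : Icc (0 : ℝ) 1 | h ≤ r ∧ (r : ℝ) ≤ q.ht}, ?_, ?_, ?_, ?_⟩
  · rintro c (⟨r, hr, rfl⟩ | ⟨r, hr, rfl⟩)
    · rw [Metric.mem_ball, ← path_ht p, dist_path, abs_of_nonpos (by linarith [hr.2])]
      linarith [hr.1]
    · rw [Metric.mem_ball]
      unfold path
      rw [dist_cls]
      have : h ≤ meet (lower q r.1 r.2.1 r.2.2) p := by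
        apply le_meet hr.1 hp
        simp only [lower]
        rw [rho_comm]; exact hrho
      simp only [lower] at this ⊢
      linarith [hr.2]
  · left
    exact ⟨⟨p.ht, p.ht0, p.ht1⟩, ⟨hp, le_rfl⟩, path_ht p⟩
  · right
    exact ⟨⟨q.ht, q.ht0, q.ht1⟩, ⟨hq, le_rfl⟩, path_ht q⟩
  · refine IsPreconnected.union (path p hI) ⟨hI, ⟨le_rfl, hp⟩, rfl⟩ ⟨hI, ⟨le_rfl, hq⟩, ?_⟩
      (segment_preconnected p h p.ht) (segment_preconnected q h q.ht)
    exact (path_eq_path p q hI hrho).symm

instance : LocallyConnectedSpace (Hull K) :=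
  locallyConnectedSpace_of_connected_bases (fun a ε => Metric.ball a ε) (fun _ ε => 0 < ε)
    (fun _ => Metric.nhds_basis_ball) (fun a ε _ => ball_preconnected a ε)

lemma dist_le_two (a b : Hull K) : dist a b ≤ 2 := by
  obtain ⟨p, rfl⟩ := cls_surj a
  obtain ⟨q, rfl⟩ := cls_surj b
  rw [dist_cls]
  linarith [p.ht1, q.ht1, meet_nonneg p q]

lemma hull_connected (hK : K.Nonempty) : ConnectedSpace (Hull K) := by
  obtain ⟨x, hx⟩ := hK
  have h1 : Metric.ball (cls (⟨x, hx, 0, le_rfl, zero_le_one⟩ : Pre K)) 3 = univ := by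
    ext b
    simp only [Metric.mem_ball, mem_univ, iff_true]
    exact lt_of_le_of_lt (dist_le_two _ _) (by norm_num)
  have h2 := ball_preconnected (cls (⟨x, hx, 0, le_rfl, zero_le_one⟩ : Pre K)) 3
  rw [h1] at h2
  exact { isPreconnected_univ := h2, toNonempty := ⟨cls ⟨x, hx, 0, le_rfl, zero_le_one⟩⟩ }

/-- The parametrisation of the tree. -/
noncomputable def param (u : K × Icc (0 : ℝ) 1) : Hull K :=
  cls ⟨u.1.1, u.1.2, u.2.1, u.2.2.1, u.2.2.2⟩

lemma param_surj : Function.Surjective (param (K := K)) := by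
  intro a
  obtain ⟨p, rfl⟩ := cls_surj a
  exact ⟨(⟨p.pt, p.mem⟩, ⟨p.ht, p.ht0, p.ht1⟩), rfl⟩

lemma dist_param (u v : K × Icc (0 : ℝ) 1) :
    dist (param u) (param v) ≤ |(u.2 : ℝ) - v.2| + 2 * rho u.1.1 v.1.1 := by
  unfold param
  rw [dist_cls]
  simp only [meet]
  have h1 := rho_nonneg u.1.1 v.1.1
  have h2 := u.2.2.2
  have h3 := v.2.2.2
  rcases le_total (u.2 : ℝ) v.2 with h | h
  · rw [min_eq_left h, abs_of_nonpos (by linarith)]
    rcases le_total (u.2 : ℝ) (1 - rho u.1.1 v.1.1) with h4 | h4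
    · rw [min_eq_left h4]; linarith
    · rw [min_eq_right h4]; linarith
  · rw [min_eq_right h, abs_of_nonneg (by linarith)]
    rcases le_total (v.2 : ℝ) (1 - rho u.1.1 v.1.1) with h4 | h4
    · rw [min_eq_left h4]; linarith
    · rw [min_eq_right h4]; linarith

lemma param_continuous : Continuous (param (K := K)) := by
  rw [continuous_iff_continuousAt]
  intro u
  rw [ContinuousAt, Metric.tendsto_nhds]
  intro ε hε
  obtain ⟨n, hn⟩ := exists_pow_lt_of_lt_one (show 0 < ε / 4 by positivity)
    (show (1 / 2 : ℝ) < 1 by norm_num)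
  have h1 : ∀ᶠ v : K × Icc (0 : ℝ) 1 in 𝓝 u, |(v.2 : ℝ) - u.2| < ε / 2 := by
    have hc : Continuous fun v : K × Icc (0 : ℝ) 1 => |(v.2 : ℝ) - u.2| := by fun_prop
    have := hc.tendsto u
    simp only [sub_self, abs_zero] at this
    exact this.eventually (gt_mem_nhds (by positivity))
  have h2 : ∀ᶠ v : K × Icc (0 : ℝ) 1 in 𝓝 u, rho v.1.1 u.1.1 ≤ (1 / 2) ^ n := by
    have hopen : IsOpen {v : K × Icc (0 : ℝ) 1 | v.1.1 ∈ PiNat.cylinder (u.1.1) n} :=
      (PiNat.isOpen_cylinder (E := fun _ => Bool) u.1.1 n).preimage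
        (continuous_subtype_val.comp continuous_fst)
    filter_upwards [hopen.mem_nhds (by simp)] with v hv
    rw [rho_le_iff]
    exact hv
  filter_upwards [h1, h2] with v hv1 hv2
  have := dist_param v u
  linarith

lemma hull_compact (hK : IsClosed K) : CompactSpace (Hull K) := by
  have : CompactSpace K := isCompact_iff_compactSpace.mp hK.isCompact
  exact ⟨by
    rw [← param_surj.range_eq]
    exact isCompact_range param_continuous⟩


lemma separation (p q : Pre K) (h : meet p q < p.ht) :
    ∃ (z : Hull K) (U V : Set (Hull K)), IsOpen U ∧ IsOpen V ∧ Disjoint U V ∧ U ∪ V = {z}ᶜ ∧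
      cls p ∈ U ∧ cls q ∈ V := by
  set r := (meet p q + p.ht) / 2 with hr
  have hr1 : meet p q < r := by rw [hr]; linarith
  have hr2 : r < p.ht := by rw [hr]; linarith
  have hr0 : 0 < r := lt_of_le_of_lt (meet_nonneg p q) hr1
  have hr3 : r ≤ 1 := hr2.le.trans p.ht1
  let zp : Pre K := lower p r hr0.le hr3
  let root : Pre K := lower p 0 le_rfl zero_le_one
  have hroot : ∀ t : Pre K, dist (cls t) (cls root) = t.ht := by
    intro t
    rw [dist_cls]
    have : meet t root = 0 := by
      apply le_antisymm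
      · exact meet_le_right t root
      · exact meet_nonneg t root
    rw [this]
    simp [root, lower]
  have hz : ∀ t : Pre K, dist (cls t) (cls zp) = t.ht + r - 2 * meet t zp := fun t => dist_cls t zp
  have hmz : ∀ t : Pre K, meet t zp ≤ r := fun t => meet_le_right t zp
  have hmz2 : ∀ t : Pre K, r ≤ t.ht → r ≤ 1 - rho p.pt t.pt → meet t zp = r := by
    intro t h1 h2
    apply le_antisymm (hmz t)
    apply le_meet h1 le_rfl
    rw [rho_comm]; exact h2
  refine ⟨cls zp, {c | ∃ t : Pre K, c = cls t ∧ r < t.ht ∧ r ≤ 1 - rho p.pt t.pt},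
    {c | dist c (cls root) < r + dist c (cls zp)}, ?_, ?_, ?_, ?_, ?_, ?_⟩
  · rw [Metric.isOpen_iff]
    rintro c ⟨t, rfl, ht1, ht2⟩
    refine ⟨t.ht - r, by linarith, ?_⟩
    intro c' hc'
    obtain ⟨t', rfl⟩ := cls_surj c'
    rw [Metric.mem_ball, dist_cls] at hc'
    have h1 := meet_le_left t' t
    have h2 := meet_le_right t' t
    have h3 := meet_le_rho t' t
    refine ⟨t', rfl, by linarith, ?_⟩
    have h4 := rho_ultra p.pt t.pt t'.pt
    rw [rho_comm t.pt t'.pt] at h4
    have h5 : max (rho p.pt t.pt) (rho t'.pt t.pt) ≤ 1 - r := max_le (by linarith) (by linarith)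
    linarith
  · exact isOpen_lt (by fun_prop) (by fun_prop)
  · rw [Set.disjoint_left]
    rintro c ⟨t, rfl, ht1, ht2⟩ hV
    simp only [Set.mem_ofPred_eq] at hV
    rw [hroot, hz, hmz2 t ht1.le ht2] at hV
    linarith
  · ext c
    obtain ⟨t, rfl⟩ := cls_surj c
    simp only [Set.mem_union, Set.mem_ofPred_eq, Set.mem_compl_iff, Set.mem_singleton_iff]
    rw [hroot, hz]
    constructor
    · rintro (⟨t', h1, h2, h3⟩ | h1)
      · intro h4
        have h5 := hroot t'
        rw [← h1, h4, hroot] at h5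
        simp only [zp, lower] at h5
        linarith
      · intro h4
        have h5 : dist (cls t) (cls zp) = 0 := by rw [h4, dist_self]
        have h6 := hroot t
        rw [h4, hroot] at h6
        simp only [zp, lower] at h6
        rw [hz] at h5
        linarith
    · intro h1
      by_cases h2 : meet t zp < r
      · right; linarith
      · left
        have h3 : meet t zp = r := le_antisymm (hmz t) (not_lt.mp h2)
        have h4 : r ≤ t.ht := by rw [← h3]; exact meet_le_left t zp
        have h5 : r ≤ 1 - rho p.pt t.pt := by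
          have := meet_le_rho t zp
          rw [h3, rho_comm] at this
          exact this
        refine ⟨t, rfl, lt_of_le_of_ne h4 ?_, h5⟩
        intro h6
        apply h1
        rw [← dist_eq_zero, hz, h3, ← h6]
        ring
  · refine ⟨p, rfl, hr2, ?_⟩
    rw [rho_self]; linarith
  · simp only [Set.mem_ofPred_eq]
    rw [hroot, hz]
    have h1 : meet q zp < r := by
      by_contra h2
      have h3 : meet q zp = r := le_antisymm (hmz q) (not_lt.mp h2)
      have h4 : r ≤ q.ht := by rw [← h3]; exact meet_le_left q zp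
      have h5 : r ≤ 1 - rho p.pt q.pt := by
        have := meet_le_rho q zp
        rw [h3, rho_comm] at this
        exact this
      have := le_meet hr2.le h4 h5
      linarith
    linarith

lemma separation' (a b : Hull K) (h : a ≠ b) :
    ∃ (z : Hull K) (U V : Set (Hull K)), IsOpen U ∧ IsOpen V ∧ Disjoint U V ∧ U ∪ V = {z}ᶜ ∧
      a ∈ U ∧ b ∈ V := by
  obtain ⟨p, rfl⟩ := cls_surj a
  obtain ⟨q, rfl⟩ := cls_surj b
  by_cases h1 : meet p q < p.ht
  · exact separation p q h1
  · have h2 : meet p q = p.ht := le_antisymm (meet_le_left p q) (not_lt.mp h1)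
    have h3 : meet q p < q.ht := by
      rw [meet_comm q p]
      refine lt_of_le_of_ne (meet_le_right p q) ?_
      intro h4
      apply h
      rw [cls_eq_iff, ← h4, ← h2]
      ring
    obtain ⟨z, U, V, hU, hV, hUV, hz, ha, hb⟩ := separation q p h3
    exact ⟨z, V, U, hV, hU, hUV.symm, by rw [Set.union_comm]; exact hz, hb, ha⟩

lemma no_circle (S : Set (Hull K)) : IsEmpty (S ≃ₜ Circle) := by
  constructor
  intro e
  have hne : (e.symm 1 : Hull K) ≠ (e.symm (Circle.exp Real.pi) : Hull K) := by
    intro h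
    have h1 := e.symm.injective (Subtype.ext h)
    exact Circle.exp_pi_ne_one h1.symm
  obtain ⟨z, U, V, hU, hV, hUV, hz, ha, hb⟩ := separation' _ _ hne
  have hcont : Continuous (fun c : Circle => (e.symm c : Hull K)) :=
    continuous_subtype_val.comp e.symm.continuous
  have key : ∀ T : Set Circle, IsPreconnected T → (∀ c ∈ T, (e.symm c : Hull K) ≠ z) →
      (1 : Circle) ∈ T → Circle.exp Real.pi ∈ T → False := by
    intro T hT hTz h1 h2
    have hT' := hT.image _ hcont.continuousOn
    obtain ⟨c, -, hc⟩ := hT' U V hU hV (by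
      rintro _ ⟨c, hc, rfl⟩
      rw [hz]
      exact hTz c hc) ⟨_, ⟨1, h1, rfl⟩, ha⟩ ⟨_, ⟨_, h2, rfl⟩, hb⟩
    exact Set.disjoint_left.mp hUV hc.1 hc.2
  have haz : (e.symm 1 : Hull K) ≠ z := by
    have : (e.symm 1 : Hull K) ∈ ({z}ᶜ : Set (Hull K)) := by rw [← hz]; exact Or.inl ha
    exact this
  have hbz : (e.symm (Circle.exp Real.pi) : Hull K) ≠ z := by
    have : (e.symm (Circle.exp Real.pi) : Hull K) ∈ ({z}ᶜ : Set (Hull K)) := by
      rw [← hz]; exact Or.inr hb
    exact this
  by_cases hzS : z ∈ S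
  · refine key {e ⟨z, hzS⟩}ᶜ (Circle.isPathConnected_compl_singleton _).isConnected.isPreconnected
      ?_ ?_ ?_
    · intro c hc h
      apply hc
      rw [Set.mem_singleton_iff]
      have : e.symm c = ⟨z, hzS⟩ := Subtype.ext h
      rw [← this, e.apply_symm_apply]
    · intro h
      rw [Set.mem_singleton_iff] at h
      apply haz
      rw [h, e.symm_apply_apply]
    · intro h
      rw [Set.mem_singleton_iff] at h
      apply hbz
      rw [h, e.symm_apply_apply]
  · have hconn : IsPreconnected (Set.univ : Set Circle) := by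
      have h1 : (Set.univ : Set Circle) = Set.range Circle.exp := by
        rw [Circle.exp_surjective.range_eq]
      rw [h1]
      exact isPreconnected_range Circle.exp.continuous
    refine key Set.univ hconn ?_ trivial trivial
    intro c _ h
    exact hzS (h ▸ (e.symm c).2)

theorem hull_dendrite (hK : IsClosed K) (hne : K.Nonempty) : IsDendrite (Hull K) :=
  ⟨hull_compact hK, hull_connected hne, inferInstance, no_circle⟩

end Pool.Agent.Lib.MP_fd67f7_an
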