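import Pool.Agent.Lib.MP_fd67f7_an.Dynamics

set_option autoImplicit false

open Filter Topology Set

namespace Pool.Agent.Lib.MP_fd67f7_an

/-- The symbol displayed during the phase `s`. -/
def phase (α : ℕ → Bool) (s : ℕ) : Bool :=
  if s % 2 = 1 then α (padicValNat 2 (s / 2 + 1)) else decide (s % 4 = 2)

/-- The sequence coded by `α`. -/
def sq (α : ℕ → Bool) (t : ℕ) : Bool := phase α (Nat.log 4 t)

/-- Sequences with at most one switch. -/
def OneSwitch (x : ℕ → Bool) : Prop := ∀ i j, i < j → x i = x (i + 1) ∨ x j = x (j + 1)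

/-- The subshift. -/
def X0 : Set (ℕ → Bool) := {x | (∃ t α, x = shift^[t] (sq α)) ∨ OneSwitch x}

lemma switch_at (α : ℕ → Bool) (n : ℕ) (h : sq α n ≠ sq α (n + 1)) : ∃ a, n + 1 = 4 ^ a := by
  refine ⟨Nat.log 4 (n + 1), ?_⟩
  by_contra h0
  have h1 := Nat.pow_log_le_self 4 (show n + 1 ≠ 0 by omega)
  have h2 : 4 ^ Nat.log 4 (n + 1) ≤ n := by omega
  have h3 : Nat.log 4 (n + 1) ≤ Nat.log 4 n := Nat.le_log_of_pow_le (by norm_num) h2
  have h4 : Nat.log 4 n ≤ Nat.log 4 (n + 1) := Nat.log_mono_right (by omega)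
  apply h
  unfold sq
  rw [le_antisymm h4 h3]

/-- Sequences with at most one switch before time `m`. -/
def Cm (m : ℕ) : Set (ℕ → Bool) :=
  {x | ∀ i j, i < j → j < m → x i = x (i + 1) ∨ x j = x (j + 1)}

lemma shift_mem_Cm (α : ℕ → Bool) (m t : ℕ) (ht : m ≤ t) : shift^[t] (sq α) ∈ Cm m := by
  intro i j hij hj
  rw [shift_iterate, shift_iterate, shift_iterate, shift_iterate]
  by_contra hcon
  push Not at hcon
  obtain ⟨h1, h2⟩ := hcon
  have e1 : i + 1 + t = (i + t) + 1 := by ring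
  have e2 : j + 1 + t = (j + t) + 1 := by ring
  rw [e1] at h1
  rw [e2] at h2
  obtain ⟨a, ha⟩ := switch_at α _ h1
  obtain ⟨b, hb⟩ := switch_at α _ h2
  have h3 : 4 ^ a < 4 ^ b := by omega
  have h4 : a < b := (Nat.pow_lt_pow_iff_right (by norm_num)).mp h3
  have h5 : 4 ^ (a + 1) ≤ 4 ^ b := Nat.pow_le_pow_right (by norm_num) h4
  rw [pow_succ] at h5
  omega

lemma X0_eq : X0 = ⋂ m : ℕ, ((⋃ t ∈ Finset.range m, range (fun α => shift^[t] (sq α))) ∪ Cm m) := by
  ext x
  simp only [X0, Set.mem_ofPred_eq, Set.mem_iInter, Set.mem_union, Set.mem_iUnion,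
    Finset.mem_range, Set.mem_range]
  constructor
  · rintro (⟨t, α, rfl⟩ | h) m
    · by_cases hm : t < m
      · left; exact ⟨t, hm, α, rfl⟩
      · right; exact shift_mem_Cm α m t (not_lt.mp hm)
    · right
      intro i j hij _
      exact h i j hij
  · intro h
    by_cases h0 : ∃ m, ∃ t, ∃ _ : t < m, ∃ α, shift^[t] (sq α) = x
    · obtain ⟨m, t, _, α, hα⟩ := h0
      left; exact ⟨t, α, hα.symm⟩
    · right
      intro i j hij
      push Not at h0
      rcases h (j + 1) with ⟨t, ht, α, hα⟩ | h1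
      · exact absurd hα (h0 (j + 1) t ht α)
      · exact h1 i j hij (by omega)

lemma continuous_sq (t : ℕ) : Continuous (fun α => shift^[t] (sq α)) := by
  apply continuous_pi
  intro n
  have h1 : (fun α : ℕ → Bool => (shift^[t] (sq α)) n) =
      fun α : ℕ → Bool => phase α (Nat.log 4 (n + t)) := by
    funext α
    rw [shift_iterate]
    rfl
  rw [h1]
  unfold phase
  split_ifs
  · exact continuous_apply _
  · exact continuous_const

lemma isClosed_Cm (m : ℕ) : IsClosed (Cm m) := by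
  have h1 : Cm m = ⋂ i : ℕ, ⋂ j : ℕ, ⋂ _ : i < j, ⋂ _ : j < m,
      ({x : ℕ → Bool | x i = x (i + 1)} ∪ {x : ℕ → Bool | x j = x (j + 1)}) := by
    ext x
    simp only [Cm, Set.mem_ofPred_eq, Set.mem_iInter, Set.mem_union]
  rw [h1]
  refine isClosed_iInter fun i => isClosed_iInter fun j => isClosed_iInter fun _ =>
    isClosed_iInter fun _ => IsClosed.union ?_ ?_
  · exact isClosed_eq (continuous_apply _) (continuous_apply _)
  · exact isClosed_eq (continuous_apply _) (continuous_apply _)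

lemma isClosed_X0 : IsClosed X0 := by
  rw [X0_eq]
  refine isClosed_iInter fun m => IsClosed.union ?_ (isClosed_Cm m)
  refine isClosed_biUnion_finset fun t _ => ?_
  exact (isCompact_range (continuous_sq t)).isClosed

lemma shift_X0 : ∀ x ∈ X0, shift x ∈ X0 := by
  rintro x (⟨t, α, rfl⟩ | h)
  · left
    exact ⟨t + 1, α, (Function.iterate_succ_apply' shift t (sq α)).symm⟩
  · right
    intro i j hij
    exact h (i + 1) (j + 1) (by omega)

lemma sq_mem (α : ℕ → Bool) : sq α ∈ X0 := Or.inl ⟨0, α, rfl⟩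

/-- The possible phase functions. -/
def IsPhase (c : ℕ → Bool) : Prop := (∃ α, c = phase α) ∨ ∃ b : Bool, c = fun _ => b

lemma sq_hasPhase (α : ℕ → Bool) (t : ℕ) : HasPhase (shift^[t] (sq α)) (phase α) t := by
  intro s k _ h2 h3
  rw [shift_iterate]
  unfold sq
  congr 1
  exact Nat.log_eq_of_pow_le_of_lt_pow (by omega) h3

lemma exists_phase (x : ℕ → Bool) (hx : x ∈ X0) : ∃ c i, IsPhase c ∧ HasPhase x c i := by
  rcases hx with ⟨t, α, rfl⟩ | h
  · exact ⟨phase α, t, Or.inl ⟨α, rfl⟩, sq_hasPhase α t⟩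
  · by_cases h0 : ∃ i, x i ≠ x (i + 1)
    · obtain ⟨i, hi⟩ := h0
      have h1 : ∀ k, x (i + 1 + k) = x (i + 1) := by
        intro k
        induction k with
        | zero => rfl
        | succ k ih =>
          rw [← ih]
          rcases h i (i + 1 + k) (by omega) with h2 | h2
          · exact absurd h2 hi
          · exact h2.symm
      refine ⟨fun _ => x (i + 1), i + 1, Or.inr ⟨_, rfl⟩, ?_⟩
      intro s k h2 h3 _
      obtain ⟨r, rfl⟩ : ∃ r, k = i + 1 + r := ⟨k - (i + 1), by omega⟩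
      exact h1 r
    · push Not at h0
      have h1 : ∀ k, x k = x 0 := by
        intro k
        induction k with
        | zero => rfl
        | succ k ih => rw [← h0 k, ih]
      exact ⟨fun _ => x 0, 0, Or.inr ⟨_, rfl⟩, fun s k _ _ _ => h1 k⟩

lemma phase_odd (α : ℕ → Bool) (l r : ℕ) :
    phase α (2 ^ (l + 2) * r + 2 ^ (l + 1) - 1) = α l := by
  have h1 : 2 ^ (l + 2) * r + 2 ^ (l + 1) - 1 = 2 * (2 ^ (l + 1) * r + 2 ^ l - 1) + 1 := by
    have e1 : 2 ^ (l + 2) * r = 2 * (2 ^ (l + 1) * r) := by rw [pow_succ 2 (l + 1)]; ring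
    have e2 : 2 ^ (l + 1) = 2 * 2 ^ l := by rw [pow_succ]; ring
    have e3 : 0 < 2 ^ l := by positivity
    omega
  rw [h1]
  unfold phase
  have h2 : (2 * (2 ^ (l + 1) * r + 2 ^ l - 1) + 1) % 2 = 1 := by omega
  rw [if_pos h2]
  have h3 : (2 * (2 ^ (l + 1) * r + 2 ^ l - 1) + 1) / 2 + 1 = 2 ^ l * (2 * r + 1) := by
    have e3 : 0 < 2 ^ l := by positivity
    have e4 : 2 ^ l * (2 * r + 1) = 2 ^ (l + 1) * r + 2 ^ l := by rw [pow_succ]; ring
    omega
  rw [h3]
  congr 1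
  have : Fact (Nat.Prime 2) := ⟨Nat.prime_two⟩
  rw [padicValNat.mul (by positivity) (by omega), padicValNat.prime_pow,
    padicValNat.eq_zero_of_not_dvd (by omega), add_zero]

lemma phase_syndetic (α β : ℕ → Bool) (h : α ≠ β) :
    ∃ G, ∀ s₀, ∃ s, s₀ ≤ s ∧ s < s₀ + G ∧ phase α s ≠ phase β s := by
  obtain ⟨l, hl⟩ := Function.ne_iff.mp h
  refine ⟨2 ^ (l + 3), fun s₀ => ⟨2 ^ (l + 2) * (s₀ / 2 ^ (l + 2) + 1) + 2 ^ (l + 1) - 1, ?_, ?_, ?_⟩⟩
  · have h1 := Nat.div_add_mod s₀ (2 ^ (l + 2))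
    have h2 := Nat.mod_lt s₀ (show 0 < 2 ^ (l + 2) by positivity)
    have h3 : 0 < 2 ^ (l + 1) := by positivity
    rw [mul_add, mul_one]
    omega
  · have h1 := Nat.div_add_mod s₀ (2 ^ (l + 2))
    have h3 : 0 < 2 ^ (l + 1) := by positivity
    have h4 : 2 ^ (l + 2) = 2 * 2 ^ (l + 1) := by rw [pow_succ]; ring
    have h5 : 2 ^ (l + 3) = 4 * 2 ^ (l + 1) := by rw [pow_succ, pow_succ]; ring
    rw [mul_add, mul_one]
    omega
  · rw [phase_odd, phase_odd]
    exact hl

lemma phase_const_syndetic (α : ℕ → Bool) (b : Bool) :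
    ∀ s₀, ∃ s, s₀ ≤ s ∧ s < s₀ + 8 ∧ phase α s ≠ b := by
  intro s₀
  cases b
  · refine ⟨4 * (s₀ / 4 + 1) + 2, by omega, by omega, ?_⟩
    unfold phase
    rw [if_neg (by omega)]
    have : (4 * (s₀ / 4 + 1) + 2) % 4 = 2 := by omega
    rw [this]
    decide
  · refine ⟨4 * (s₀ / 4 + 1), by omega, by omega, ?_⟩
    unfold phase
    rw [if_neg (by omega)]
    have : (4 * (s₀ / 4 + 1)) % 4 = 0 := by omega
    rw [this]
    decide

lemma isPhase_syndetic (c c' : ℕ → Bool) (hc : IsPhase c) (hc' : IsPhase c') (h : c ≠ c') :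
    ∃ G, ∀ s₀, ∃ s, s₀ ≤ s ∧ s < s₀ + G ∧ c s ≠ c' s := by
  rcases hc with ⟨α, rfl⟩ | ⟨a, rfl⟩ <;> rcases hc' with ⟨β, rfl⟩ | ⟨b, rfl⟩
  · exact phase_syndetic α β (fun h0 => h (by rw [h0]))
  · exact ⟨8, fun s₀ => phase_const_syndetic α b s₀⟩
  · refine ⟨8, fun s₀ => ?_⟩
    obtain ⟨s, h1, h2, h3⟩ := phase_const_syndetic β a s₀
    exact ⟨s, h1, h2, h3.symm⟩
  · refine ⟨1, fun s₀ => ⟨s₀, le_rfl, by omega, ?_⟩⟩
    intro h0
    apply h
    funext _
    exact h0

/-- The map on the dendrite. -/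
noncomputable def F : Hull X0 → Hull X0 := hullMap shift_X0

lemma one_le_diam : 1 ≤ Metric.diam (Set.univ : Set (Hull X0)) := by
  have hb : Bornology.IsBounded (Set.univ : Set (Hull X0)) :=
    Metric.isBounded_iff.mpr ⟨2, fun a _ b _ => dist_le_two a b⟩
  let p : Pre X0 := endPt (sq fun _ => true) (sq_mem _)
  let q : Pre X0 := lower p 0 le_rfl zero_le_one
  have h1 : dist (cls p) (cls q) = 1 := by
    rw [dist_cls]
    have : meet p q = 0 := le_antisymm (meet_le_right p q) (meet_nonneg p q)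
    rw [this]
    simp [p, q, endPt, lower]
  rw [← h1]
  exact Metric.dist_le_diam_of_mem hb (mem_univ _) (mem_univ _)

lemma closeCount_comm {X : Type} [MetricSpace X] (f : X → X) (x y : X) (δ : ℝ) (n : ℕ) :
    closeCount f x y δ n = closeCount f y x δ n := by
  unfold closeCount
  simp only [dist_comm]

theorem no_DC2 (a b : Hull X0) : ¬ IsDC2Pair F a b := by
  rintro ⟨_, hupper, ε, hε, _, hlower⟩
  have hup1 := hupper 1 one_pos one_le_diam
  obtain ⟨p, rfl⟩ := cls_surj a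
  obtain ⟨q, rfl⟩ := cls_surj b
  rcases p.ht1.lt_or_eq with hp | hp <;> rcases q.ht1.lt_or_eq with hq | hq
  · obtain ⟨k₀, hk₀⟩ := dist_eventually_zero shift_X0 p q hp hq
    exact absurd hlower (not_lt.mpr (lowerPhi_of_eventually_zero _ _ _ k₀ hk₀ ε hε))
  · obtain ⟨k₀, hk₀⟩ := dist_eventually_one shift_X0 q p hq hp
    have h1 := upperPhi_of_eventually_ge F (cls p) (cls q) k₀ 1 (fun k hk => by
      rw [dist_comm]; exact (hk₀ k hk).ge)
    rw [hup1] at h1
    norm_num at h1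
  · obtain ⟨k₀, hk₀⟩ := dist_eventually_one shift_X0 p q hp hq
    have h1 := upperPhi_of_eventually_ge F (cls p) (cls q) k₀ 1 (fun k hk => (hk₀ k hk).ge)
    rw [hup1] at h1
    norm_num at h1
  · obtain ⟨c, i, hc, hci⟩ := exists_phase p.pt p.mem
    obtain ⟨c', i', hc', hci'⟩ := exists_phase q.pt q.mem
    have h1 := hci.mono (le_max_left i i')
    have h2 := hci'.mono (le_max_right i i')
    by_cases h : c = c'
    · subst h
      exact absurd hlower (not_lt.mpr (one_le_lowerPhi_of_same shift_X0 p q hp hq c _ h1 h2 ε hε))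
    · obtain ⟨G, hG⟩ := isPhase_syndetic c c' hc hc' h
      have h3 := upperPhi_lt_one shift_X0 p q hp hq c c' _ h1 h2 G hG
      exact absurd hup1 h3.ne

/-- The DC2½ set. -/
noncomputable def pnt (α : ℕ → Bool) : Hull X0 := cls (endPt (sq α) (sq_mem α))

lemma sq_injective (α β : ℕ → Bool) (h : α ≠ β) : sq α ≠ sq β := by
  obtain ⟨G, hG⟩ := phase_syndetic α β h
  obtain ⟨s, -, -, hs⟩ := hG 0
  intro h0
  apply hs
  have h1 : sq α (4 ^ s) = sq β (4 ^ s) := by rw [h0]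
  unfold sq at h1
  rwa [Nat.log_pow (by norm_num)] at h1

lemma pnt_injective : Function.Injective pnt := by
  intro α β h
  by_contra hne
  have h1 := dist_iterate_end shift_X0 (endPt (sq α) (sq_mem α)) (endPt (sq β) (sq_mem β)) rfl rfl 0
  simp only [Function.iterate_zero, id_eq] at h1
  unfold pnt at h
  rw [h, dist_self] at h1
  have h2 : rho (sq α) (sq β) = 0 := by
    simp only [endPt] at h1
    linarith
  exact sq_injective α β hne (rho_eq_zero h2)

theorem pnt_DC25 (α β : ℕ → Bool) (h : α ≠ β) : IsDC25Pair F (pnt α) (pnt β) := by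
  have h1 : HasPhase (endPt (sq α) (sq_mem α) : Pre X0).pt (phase α) 0 := sq_hasPhase α 0
  have h2 : HasPhase (endPt (sq β) (sq_mem β) : Pre X0).pt (phase β) 0 := sq_hasPhase β 0
  obtain ⟨G, hG⟩ := phase_syndetic α β h
  refine isDC25Pair_of F _ _ (fun h0 => h (pnt_injective h0)) 1 (1 / 2) (5 / 8) one_pos (by norm_num)
    ?_ ?_
  · refine lowerPhi_le_of_frequently shift_X0 _ _ rfl rfl _ _ 0 h1 h2 ?_
    rw [Filter.frequently_atTop]
    intro s₀
    obtain ⟨s, h3, _, h4⟩ := hG s₀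
    exact ⟨s, h3, h4⟩
  · intro δ hδ
    refine le_upperPhi_of_frequently shift_X0 _ _ rfl rfl _ _ 0 h1 h2 ?_ δ hδ
    rw [Filter.frequently_atTop]
    intro s₀
    refine ⟨2 * s₀, by omega, ?_⟩
    unfold phase
    rw [if_neg (by omega), if_neg (by omega)]

theorem main : IsDendrite (Hull X0) ∧ Continuous F ∧
    (∃ S : Set (Hull X0), ¬ S.Countable ∧ ∀ x ∈ S, ∀ y ∈ S, x ≠ y → IsDC25Pair F x y) ∧
    ∀ x y, ¬ IsDC2Pair F x y := by
  refine ⟨hull_dendrite isClosed_X0 ⟨_, sq_mem fun _ => true⟩, hullMap_continuous shift_X0,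
    ⟨range pnt, ?_, ?_⟩, no_DC2⟩
  · intro hc
    have h1 : (Set.univ : Set (ℕ → Bool)).Countable := by
      have := hc.preimage_of_injOn (f := pnt) pnt_injective.injOn
      rwa [Set.preimage_range] at this
    rw [Set.countable_univ_iff] at h1
    rw [← Cardinal.mk_le_aleph0_iff, ← not_lt] at h1
    apply h1
    simp [Cardinal.aleph0_lt_continuum]
  · rintro _ ⟨α, rfl⟩ _ ⟨β, rfl⟩ hne
    exact pnt_DC25 α β (fun h => hne (by rw [h]))

end Pool.Agent.Lib.MP_fd67f7_an
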